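import Pool.Agent.Work.MP_80ee1d_an.Stmt

/-! The overlap function of a domain and the level function. -/

open MeasureTheory

noncomputable section
namespace CritSys

/-- The infimum of `∫ (|∇u|² + l u²)` over `∫ u⁴ = 1`. -/
def sobC (Ω : Set E4) (l : ℝ) : ℝ :=
  sInf {r | ∃ u : H01 Ω, ∫ x in Ω, u.val x ^ 4 = 1 ∧ r = quad l u}

/-- The supremum of `∫ u² v²` over `∫ u⁴ = ∫ v⁴ = 1`, `∫ (|∇u|² + l₁ u²) ≤ x`,
`∫ (|∇v|² + l₂ v²) ≤ y`. -/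
def overlap (Ω : Set E4) (l1 l2 x y : ℝ) : ℝ :=
  sSup {r | ∃ u v : H01 Ω, ∫ z in Ω, u.val z ^ 4 = 1 ∧ ∫ z in Ω, v.val z ^ 4 = 1 ∧
    quad l1 u ≤ x ∧ quad l2 v ≤ y ∧ r = ∫ z in Ω, u.val z ^ 2 * v.val z ^ 2}

/-- The system `x = m₁ s + b t`, `y = b s + m₂ t` has a unique solution and `s, t > 0`
(for `x, y > 0`, `b ≥ 0`). -/
def Inner (m1 m2 b x y : ℝ) : Prop := 0 < (m1 * y - b * x) * (m2 * x - b * y)

open Classical in
/-- The level: `s x + t y` at an inner point, `max (x² / m₁) (y² / m₂)` otherwise. -/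
def lev (m1 m2 b x y : ℝ) : ℝ :=
  if Inner m1 m2 b x y then (m2 * x ^ 2 - 2 * b * x * y + m1 * y ^ 2) / (m1 * m2 - b ^ 2)
  else max (x ^ 2 / m1) (y ^ 2 / m2)

end CritSys
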