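import Pool.Agent.Work.MP_80ee1d_an.W.Defs
import Pool.Agent.Work.MP_80ee1d_an.U.CritC
import Pool.Agent.Work.MP_80ee1d_an.BridgeB

-- merged part: Pool.Agent.Work.MP_80ee1d_an.W.Alg
section
/-! Algebra of the level function. -/

namespace CritSys

variable {m1 m2 β τ x y s t : ℝ}

theorem Inner.swap {b : ℝ} (h : Inner m1 m2 b x y) : Inner m2 m1 b y x := by
  unfold Inner at h ⊢
  rwa [mul_comm]

theorem lev_swap (m1 m2 b x y : ℝ) : lev m1 m2 b x y = lev m2 m1 b y x := by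
  unfold lev
  by_cases h : Inner m1 m2 b x y
  · rw [if_pos h, if_pos h.swap, mul_comm m2 m1]
    ring
  · rw [if_neg h, if_neg fun h' => h h'.swap, max_comm]

theorem lev_of_sys (h : Sys m1 m2 β x y 1 1 τ s t) (hd : (β * τ) ^ 2 ≠ m1 * m2) :
    Inner m1 m2 (β * τ) x y ∧ lev m1 m2 (β * τ) x y = s * x + t * y := by
  obtain ⟨s0, t0, hx, hy⟩ := h
  have hD := sub_ne_zero.2 hd.symm
  have hi : Inner m1 m2 (β * τ) x y := by
    have e : (m1 * y - β * τ * x) * (m2 * x - β * τ * y) =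
        s * t * (m1 * m2 - (β * τ) ^ 2) ^ 2 := by rw [hx, hy]; ring
    unfold Inner
    rw [e]
    positivity
  refine ⟨hi, ?_⟩
  rw [lev, if_pos hi, div_eq_iff hD, hx, hy]
  ring

theorem Inner.sys (h1 : 0 < m1) (h2 : 0 < m2) (hb : 0 ≤ β * τ) (x0 : 0 < x) (y0 : 0 < y)
    (h : Inner m1 m2 (β * τ) x y) :
    (β * τ) ^ 2 ≠ m1 * m2 ∧ ∃ s t, Sys m1 m2 β x y 1 1 τ s t := by
  have xy := mul_pos x0 y0
  rcases mul_pos_iff.1 h with ⟨a, b⟩ | ⟨a, b⟩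
  · have hD : (β * τ) ^ 2 < m1 * 1 * (m2 * 1) := by
      have k := mul_lt_mul'' (sub_pos.1 a) (sub_pos.1 b) (mul_nonneg hb x0.le) (mul_nonneg hb y0.le)
      exact lt_of_mul_lt_mul_right (a := x * y) (by linarith) xy.le
    exact ⟨by linarith, _, _, Env_sys (a := x) (b := y) hD.ne (div_pos (by linarith) (by linarith))
      (div_pos (by linarith) (by linarith))⟩
  · have hD : m1 * 1 * (m2 * 1) < (β * τ) ^ 2 := by
      have k := mul_lt_mul'' (sub_neg.1 a) (sub_neg.1 b) (mul_pos h1 y0).le (mul_pos h2 x0).le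
      exact lt_of_mul_lt_mul_right (a := x * y) (by linarith) xy.le
    exact ⟨by linarith, _, _, Env_sys (a := x) (b := y) hD.ne'
      (div_pos_of_neg_of_neg (by linarith) (by linarith))
      (div_pos_of_neg_of_neg (by linarith) (by linarith))⟩

theorem lev_le (h1 : 0 < m1) (h2 : 0 < m2) (hb : 0 ≤ β * τ) (x0 : 0 < x) (y0 : 0 < y)
    (h : m1 * y < β * τ * x) : lev m1 m2 (β * τ) x y * m1 ≤ x ^ 2 := by
  by_cases hi : Inner m1 m2 (β * τ) x y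
  · obtain ⟨hd, s, t, hs⟩ := hi.sys h1 h2 hb x0 y0
    rw [(lev_of_sys hs hd).2]
    obtain ⟨-, t0, hx, hy⟩ := hs
    have e1 : m1 * y - β * τ * x = t * (m1 * m2 - (β * τ) ^ 2) := by rw [hx, hy]; ring
    have e2 : (s * x + t * y) * m1 = x ^ 2 + t * (t * (m1 * m2 - (β * τ) ^ 2)) := by
      rw [hx, hy]; ring
    rw [e2, ← e1]
    linarith [mul_pos t0 (sub_pos.2 h)]
  · have e : β * τ * y ≤ m2 * x := not_lt.1 fun e =>
      hi (mul_pos_of_neg_of_neg (sub_neg.2 h) (sub_neg.2 e))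
    have e1 : y ^ 2 / m2 ≤ x ^ 2 / m1 := by
      rw [div_le_div_iff₀ h2 h1]
      linarith [mul_lt_mul_of_pos_right h y0, mul_le_mul_of_nonneg_right e x0.le]
    rw [lev, if_neg hi, max_eq_left e1, div_mul_cancel₀ _ h1.ne']

theorem le_lev {b c : ℝ} (h1 : 0 < m1) (h2 : 0 < m2) (hi : ¬ Inner m1 m2 b x y)
    (S1 : m1 * y ≤ b * x → c * m1 ≤ x ^ 2) (S2 : m2 * x ≤ b * y → c * m2 ≤ y ^ 2) :
    c ≤ lev m1 m2 b x y := by
  rw [lev, if_neg hi]
  rcases le_or_gt (m1 * y) (b * x) with e | e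
  · exact le_max_of_le_left ((le_div_iff₀ h1).2 (S1 e))
  · exact le_max_of_le_right ((le_div_iff₀ h2).2 (S2 (not_lt.1 fun e' =>
      hi (mul_pos (sub_pos.2 e) (sub_pos.2 e')))))

theorem sys_anti {ρ s' t' : ℝ} (h : Sys m1 m2 β x y 1 1 τ s t) (h' : Sys m1 m2 β x y 1 1 ρ s' t')
    (hb : β * τ < β * ρ) : s' * x + t' * y < s * x + t * y := by
  obtain ⟨s0, t0, hx, hy⟩ := h
  obtain ⟨s1, t1, hx', hy'⟩ := h'
  have e : s * x + t * y - (s' * x + t' * y) = (β * ρ - β * τ) * (s * t' + s' * t) := by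
    linear_combination s * hx' + t * hy' - s' * hx - t' * hy
  have : 0 < (β * ρ - β * τ) * (s * t' + s' * t) := mul_pos (sub_pos.2 hb) (by positivity)
  linarith

end CritSys
end

-- merged part: Pool.Agent.Work.MP_80ee1d_an.W.Deg
section
/-!
A ground state is a non-degenerate point of the Nehari set.

Let `(√s z, √t w)` be a ground state, `P z = P w = 1`, `τ = R z w`, `x = q l1 z`, `y = q l2 w`, and suppose
`(β τ)² = m1 m2`.  Along `z + ε ψ`, `w + ε χ` the functions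
`f = β R q l1 - m1 q l2 P` and `g = (q l1)² - c m1 P` vanish at `0`, `f ≥ 0` implies `g ≥ 0` (`semi1`), and
`g' = 4 x t β α`, `f' = 2 β (x + β τ t) α + 2 β (β τ) t γ` with `α = T w w z ψ - τ T z z z ψ`,
`γ = T z z w χ - τ T w w w χ`.  So `α` or `γ` vanishes identically, which gives `τ = 1`, `z = w`.
-/

open MeasureTheory Filter Topology
open scoped ContDiff RealInnerProductSpace

noncomputable section
namespace CritSys
namespace Ctx

variable {X : Type} [MeasurableSpace X] {H : Type} [NormedAddCommGroup H] [InnerProductSpace ℝ H]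
  {μ : Measure X} [IsFiniteMeasure μ] (C : Ctx H μ) {l1 l2 m1 m2 β c s t : ℝ}

/-- An identity tested against `u ψ` with `u > 0` holds almost everywhere. -/
def FL : Prop := ∀ (u v : H) (τ : ℝ), C.Pos u → (∀ ψ, C.T v v u ψ = τ * C.T u u u ψ) →
  C.P v = τ * C.R u v

theorem Deg_data (h : C.GS l1 l2 m1 m2 β) : ∃ (z w : H) (s t : ℝ), C.P z = 1 ∧ C.P w = 1 ∧
    C.Pos z ∧ C.Pos w ∧ Sys m1 m2 β (C.q l1 z) (C.q l2 w) 1 1 (C.R z w) s t ∧
    C.LB l1 l2 m1 m2 β (s * C.q l1 z + t * C.q l2 w) ∧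
    (∀ ψ, C.B l1 z ψ = m1 * s * C.T z z z ψ + β * t * C.T w w z ψ) ∧
    ∀ ψ, C.B l2 w ψ = m2 * t * C.T w w w ψ + β * s * C.T z z w ψ := by
  obtain ⟨u, v, h⟩ := h
  have hn := h.neh
  obtain ⟨z, r, hr, pz, rfl⟩ := C.CritC_norm hn.1
  obtain ⟨w, ρ, hρ, pw, rfl⟩ := C.CritC_norm hn.2.1
  have e1 := hn.2.2.1
  have e2 := hn.2.2.2
  rw [q_smul, P_smul, R_smul] at e1 e2
  rw [pz] at e1
  rw [pw] at e2
  have p1 := h.2.2.1.smul (inv_pos.2 hr)
  have p2 := h.2.2.2.1.smul (inv_pos.2 hρ)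
  rw [inv_smul_smul₀ hr.ne'] at p1
  rw [inv_smul_smul₀ hρ.ne'] at p2
  refine ⟨z, w, r ^ 2, ρ ^ 2, pz, pw, p1, p2, ⟨pow_pos hr 2, pow_pos hρ 2,
    mul_left_cancel₀ (pow_pos hr 2).ne' (by linarith),
    mul_left_cancel₀ (pow_pos hρ 2).ne' (by linarith)⟩, fun u v huv => ?_, fun ψ => ?_,
    fun ψ => ?_⟩
  · have := h.2.2.2.2 u v huv
    rw [hn.En_eq, huv.En_eq, q_smul, q_smul] at this
    linarith
  · have := h.1 ψ
    simp only [B_smul1, T_smul1, T_smul2, T_smul3] at this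
    exact mul_left_cancel₀ hr.ne' (by linarith)
  · have := h.2.1 ψ
    simp only [B_smul1, T_smul1, T_smul2, T_smul3] at this
    exact mul_left_cancel₀ hρ.ne' (by linarith)

theorem Deg_semi (a1 : C.Adm l1) (a2 : C.Adm l2) (h1 : 0 < m1) (h2 : 0 < m2)
    (hc : C.LB l1 l2 m1 m2 β c) {z w : H} (hz : z ≠ 0) (hw : w ≠ 0)
    (h : m1 * C.q l2 w * C.P z ≤ β * C.R z w * C.q l1 z) : c * m1 * C.P z ≤ C.q l1 z ^ 2 := by
  obtain ⟨z', p, b1, b2, b3, b4, b5⟩ := C.CritA_norm hz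
  obtain ⟨w', ρ, c1, c2, c3, -, c5⟩ := C.CritA_norm hw
  rw [b3, b4, b5, c3, R_comm, c5, R_comm] at h
  rw [b3, b4, mul_pow, mul_comm (p ^ 2)]
  exact mul_le_mul_of_nonneg_right (C.semi1 a1 a2 h1 h2 hc b2 c2 le_rfl le_rfl
    (le_of_mul_le_mul_right (a := p ^ 2 * ρ) (by linarith) (by positivity))) (sq_nonneg p)

theorem Deg_sign {f g : ℝ → ℝ} {f' g' : ℝ} (hf : HasDerivAt f f' 0) (hg : HasDerivAt g g' 0)
    (f0 : f 0 = 0) (g0 : g 0 = 0) (h : ∀ᶠ ε in 𝓝 (0 : ℝ), 0 ≤ f ε → 0 ≤ g ε) (h1 : 0 < f') :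
    0 ≤ g' := by
  have k1 := (hasDerivAt_iff_tendsto_slope_left_right.1 hf).2
  have k2 := (hasDerivAt_iff_tendsto_slope_left_right.1 hg).2
  refine ge_of_tendsto k2 ?_
  filter_upwards [k1.eventually_const_lt h1, nhdsWithin_le_nhds h, self_mem_nhdsWithin]
    with ε e1 e2 (e3 : 0 < ε)
  rw [slope_def_field, f0, sub_zero, sub_zero] at e1
  rw [slope_def_field, g0, sub_zero, sub_zero]
  exact div_nonneg (e2 ((div_pos_iff_of_pos_right e3).1 e1).le) e3.le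

theorem Deg_alt (a1 : C.Adm l1) (a2 : C.Adm l2) (h1 : 0 < m1) (h2 : 0 < m2) (hβ : 0 ≤ β)
    {z w : H} (pz : C.P z = 1) (pw : C.P w = 1)
    (hs : Sys m1 m2 β (C.q l1 z) (C.q l2 w) 1 1 (C.R z w) s t)
    (hc : C.LB l1 l2 m1 m2 β (s * C.q l1 z + t * C.q l2 w))
    (e1 : ∀ ψ, C.B l1 z ψ = m1 * s * C.T z z z ψ + β * t * C.T w w z ψ)
    (e2 : ∀ ψ, C.B l2 w ψ = m2 * t * C.T w w w ψ + β * s * C.T z z w ψ)
    (hd : (β * C.R z w) ^ 2 = m1 * m2) :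
    (∀ ψ, C.T w w z ψ = C.R z w * C.T z z z ψ) ∨ ∀ χ, C.T z z w χ = C.R z w * C.T w w w χ := by
  obtain ⟨s0, t0, hx, hy⟩ := hs
  have x0 := C.q_pos a1.1 (C.CritC_ne pz)
  have b0 : 0 < β * C.R z w := lt_of_le_of_ne (mul_nonneg hβ (C.R_nonneg z w)) fun e => by
    rw [← e] at hd
    linarith [mul_pos h1 h2]
  have β0 : 0 < β := lt_of_le_of_ne hβ fun e => by simp [← e] at b0
  have key : ∀ ψ χ, 0 < (C.q l1 z + β * C.R z w * t) * (C.T w w z ψ - C.R z w * C.T z z z ψ) +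
      β * C.R z w * t * (C.T z z w χ - C.R z w * C.T w w w χ) →
      0 ≤ C.T w w z ψ - C.R z w * C.T z z z ψ := fun ψ χ hp => by
    have e0 : z + (0 : ℝ) • ψ = z := by simp
    have e0' : w + (0 : ℝ) • χ = w := by simp
    have dR : HasDerivAt (fun ε : ℝ => C.R (z + ε • ψ) (w + ε • χ))
        (2 * C.T w w z ψ + 2 * C.T z z w χ) 0 := by
      have e : (fun ε : ℝ => C.R (z + ε • ψ) (w + ε • χ)) = fun ε : ℝ => C.R z w +
          (2 * C.T w w z ψ + 2 * C.T z z w χ) * ε +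
          (C.R ψ w + 4 * C.T z ψ w χ + C.R z χ) * ε ^ 2 +
          (2 * C.T ψ ψ w χ + 2 * C.T z ψ χ χ) * ε ^ 3 + C.R ψ χ * ε ^ 4 := by
        funext ε
        simp only [R, T_add1, T_add2, T_add3, T_add4, T_smul1, T_smul2, T_smul3, T_smul4]
        rw [C.T_pairs w w z ψ, C.T_swap12 ψ z w w, C.T_swap34 z z χ w, C.T_swap34 z ψ χ w,
          C.T_swap34 ψ z χ w, C.T_swap12 ψ z w χ, C.T_swap34 ψ ψ χ w, C.T_swap12 ψ z χ χ]
        ring
      rw [e]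
      exact basic_poly _ _ _ _ _
    have d1 := C.hasDerivAt_q l1 z ψ
    have d2 := C.hasDerivAt_q l2 w χ
    have d3 := C.hasDerivAt_P z ψ
    have n1 : ∀ᶠ ε in 𝓝 (0 : ℝ), z + ε • ψ ≠ 0 :=
      ContinuousAt.eventually_ne (g := fun ε : ℝ => z + ε • ψ) (by fun_prop)
        (by simpa using C.CritC_ne pz)
    have n2 : ∀ᶠ ε in 𝓝 (0 : ℝ), w + ε • χ ≠ 0 :=
      ContinuousAt.eventually_ne (g := fun ε : ℝ => w + ε • χ) (by fun_prop)
        (by simpa using C.CritC_ne pw)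
    have k := Deg_sign (((dR.const_mul β).fun_mul d1).fun_sub ((d2.const_mul m1).fun_mul d3))
      ((d1.fun_pow 2).fun_sub (d3.const_mul ((s * C.q l1 z + t * C.q l2 w) * m1)))
      (by
        simp only [e0, e0', pz]
        linear_combination β * C.R z w * hx - m1 * hy + t * hd)
      (by
        simp only [e0, pz]
        linear_combination (C.q l1 z + β * C.R z w * t) * hx - t * m1 * hy + t ^ 2 * hd)
      ((n1.and n2).mono fun ε hε h => sub_nonneg.2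
        (C.Deg_semi a1 a2 h1 h2 hc hε.1 hε.2 (sub_nonneg.1 h)))
      (by
        simp only [e0, e0', pz, e1, e2]
        refine lt_of_lt_of_eq (mul_pos (mul_pos two_pos β0) hp) ?_
        linear_combination (-2 * β * C.T z z w χ - 2 * β * C.R z w * C.T z z z ψ) * hx +
          4 * C.T z z z ψ * m1 * hy - (4 * t * C.T z z z ψ + 2 * t * C.T w w w χ) * hd)
    simp only [e0, e1] at k
    refine nonneg_of_mul_nonneg_right (k.trans_eq ?_)
      (show 0 < 4 * C.q l1 z * t * β by positivity)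
    push_cast
    linear_combination (4 * t * β * C.R z w * C.T z z z ψ) * hx - 4 * t * m1 * C.T z z z ψ * hy +
      4 * t ^ 2 * C.T z z z ψ * hd
  by_contra hn
  obtain ⟨⟨ψ, hψ⟩, χ, hχ⟩ := (not_or.1 hn).imp not_forall.1 not_forall.1
  have hγ : β * C.R z w * t * (C.T z z w χ - C.R z w * C.T w w w χ) ≠ 0 :=
    mul_ne_zero (mul_pos b0 t0).ne' (sub_ne_zero.2 hχ)
  have key' : ∀ ψ, 0 ≤ C.T w w z ψ - C.R z w * C.T z z z ψ := fun ψ => by
    obtain ⟨N, hN⟩ : ∃ N : ℝ, N * (β * C.R z w * t * (C.T z z w χ - C.R z w * C.T w w w χ)) =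
        1 - (C.q l1 z + β * C.R z w * t) * (C.T w w z ψ - C.R z w * C.T z z z ψ) :=
      ⟨_, div_mul_cancel₀ _ hγ⟩
    refine key ψ (N • χ) ?_
    rw [T_smul4, T_smul4]
    linarith
  have k1 := key' ψ
  have k2 := key' ((-1 : ℝ) • ψ)
  rw [T_smul4, T_smul4] at k2
  exact hψ (by linarith)

theorem Deg_ne (hN : C.NC) (hF : C.FL) (a1 : C.Adm l1) (a2 : C.Adm l2) (hl : l1 < l2) (h1 : 0 < m1)
    (h2 : 0 < m2) (hβ : 0 ≤ β) {z w : H} (pz : C.P z = 1) (pw : C.P w = 1) (z0 : C.Pos z)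
    (w0 : C.Pos w) (hs : Sys m1 m2 β (C.q l1 z) (C.q l2 w) 1 1 (C.R z w) s t)
    (hc : C.LB l1 l2 m1 m2 β (s * C.q l1 z + t * C.q l2 w))
    (e1 : ∀ ψ, C.B l1 z ψ = m1 * s * C.T z z z ψ + β * t * C.T w w z ψ)
    (e2 : ∀ ψ, C.B l2 w ψ = m2 * t * C.T w w w ψ + β * s * C.T z z w ψ) :
    (β * C.R z w) ^ 2 ≠ m1 * m2 := fun hd => by
  have k1 : 1 = C.R z w * C.R z w := by
    rcases C.Deg_alt a1 a2 h1 h2 hβ pz pw hs hc e1 e2 hd with h | h
    · exact pw ▸ hF z w _ z0 h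
    · exact pz ▸ (hF w z _ w0 h).trans (by rw [C.R_comm w z])
  have k2 : C.R z w = 1 := by nlinarith [C.R_nonneg z w]
  have k3 : C.R (z + w) (z - w) = 0 := by
    have e : C.R (z + w) (z - w) = C.P z - 2 * C.R z w + C.P w := by
      simp only [R, P, T_add1, T_add2, T_sub3, T_sub4]
      have b1 := C.T_swap34 z z w z
      have b2 := C.T_swap24 z w z z
      have b3 := C.T_swap14 w z z z
      have b4 := C.T_swap23 z w z w
      have b5 := C.T_swap24 z w w z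
      have b6 := C.T_swap13 w z z w
      have b7 := C.T_swap14 w z w z
      have b8 := C.T_pairs w w z z
      have b9 := C.T_swap12 w z w w
      have b10 := C.T_swap13 w w z w
      have b11 := C.T_swap14 w w w z
      have b12 := C.T_swap34 z z w w
      have b13 := C.T_swap23 z w w z
      linarith
    rw [e, pz, pw, k2]
    ring
  have p : C.Pos (z + w) := by
    unfold Pos PosL at *
    rw [map_add]
    filter_upwards [z0, w0, Lp.coeFn_add (C.val z) (C.val w)] with x b1 b2 b3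
    rw [b3]
    exact add_pos b1 b2
  obtain rfl : z = w := sub_eq_zero.1 (by_contra fun e => (C.R_pos p e).ne' k3)
  have k4 : ∀ ψ, (l2 - l1) * C.M z ψ =
      (m2 * t + β * s - (m1 * s + β * t)) * C.T z z z ψ + 0 * C.T z z z ψ := fun ψ => by
    have b1 := e1 ψ
    have b2 := e2 ψ
    rw [B] at b1 b2
    linarith
  have k5 := k4 z
  have k6 := mul_pos (sub_pos.2 hl) (C.M_pos z0.ne_zero)
  have k7 : C.T z z z z = 1 := pz
  rw [k7] at k5
  exact hN z z z _ 0 _ z0 (by linarith) le_rfl (sub_pos.2 hl) k4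

end Ctx

theorem ctx_FL (d : Dom) : (ctx d).FL := by
  intro u v τ hu h
  have hm := d.isOpen.measurableSet
  have hi : IntegrableOn (fun x => (0 + 1 * (valK d v x * valK d v x) +
      -τ * (valK d u x * valK d u x)) * val (incl d u) x) d.Ω := by
    refine ((T4_integrable (valK d v) (valK d v) (valK d u) (oneL d.μ)).add
      ((T4_integrable (valK d u) (valK d u) (valK d u) (oneL d.μ)).const_mul (-τ))).congr ?_
    filter_upwards [oneL_ae (μ := d.μ), valK_ae d u] with x h1 h2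
    simp only [Pi.add_apply]
    rw [h1, ← h2]
    ring
  have h0 := d.isOpen.ae_eq_zero_of_integral_contDiff_smul_eq_zero hi.locallyIntegrableOn
    fun g hg hk hs => by
      have hf := ofT_mem_H0 (f := ⟨g, hg, hk⟩) hs
      have e := inst_V d 0 1 (-τ) (valK d v) (valK d u) u (mkK d _ hf)
      have e' : T4 (valK d v) (valK d v) (valK d u) (valK d (mkK d _ hf)) =
          τ * T4 (valK d u) (valK d u) (valK d u) (valK d (mkK d _ hf)) := h _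
      rw [← setIntegral_eq_integral_of_forall_compl_eq_zero (s := d.Ω) fun x hx => by
        rw [image_eq_zero_of_notMem_tsupport fun h => hx (hs h), zero_smul]]
      refine Eq.trans (integral_congr_ae ?_) (e.symm.trans (by linarith))
      filter_upwards [ae_restrict_of_ae (s := d.Ω) (val_ofT ⟨g, hg, hk⟩)] with x h3
      rw [incl_mkK, h3, smul_eq_mul, mul_comm]
  change T4 (valK d v) (valK d v) (valK d v) (valK d v) =
    τ * T4 (valK d u) (valK d u) (valK d v) (valK d v)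
  unfold T4
  rw [← integral_const_mul]
  refine integral_congr_ae ?_
  filter_upwards [(ae_restrict_iff' hm).2 h0, hu, valK_ae d u] with x h1 h2 h3
  have h4 := (mul_eq_zero.1 h1).resolve_right (h3 ▸ h2.ne')
  linear_combination valK d v x * valK d v x * h4

end CritSys
end
end

-- merged part: Pool.Agent.Work.MP_80ee1d_an.W.Crit
section
/-! The criterion for the existence of a ground state in terms of the overlap function. -/

open MeasureTheory Filter Topology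
open scoped RealInnerProductSpace

noncomputable section
namespace CritSys
namespace Ctx

variable {X : Type} [MeasurableSpace X] {H : Type} [NormedAddCommGroup H] [InnerProductSpace ℝ H]
  {μ : Measure X} [IsFiniteMeasure μ] (C : Ctx H μ) {l l1 l2 m1 m2 β c x y : ℝ}

/-- Some normalised function has `q l u ≤ x`. -/
def Feas (l x : ℝ) : Prop := ∃ u, C.P u = 1 ∧ C.q l u ≤ x

/-- The set of overlaps. -/
def OvS (l1 l2 x y : ℝ) : Set ℝ :=
  {r | ∃ u v, C.P u = 1 ∧ C.P v = 1 ∧ C.q l1 u ≤ x ∧ C.q l2 v ≤ y ∧ r = C.R u v}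

/-- The overlap function. -/
def Ov (l1 l2 x y : ℝ) : ℝ := sSup (C.OvS l1 l2 x y)

theorem Feas.pos {C : Ctx H μ} (a : C.Adm l) (h : C.Feas l x) : 0 < x := by
  obtain ⟨u, h1, h2⟩ := h
  exact (C.q_pos a.1 (C.CritC_ne h1)).trans_le h2

theorem OvS_bdd (l1 l2 x y : ℝ) : BddAbove (C.OvS l1 l2 x y) := ⟨1, by
  rintro _ ⟨u, v, h1, h2, -, -, rfl⟩
  have := C.R_le u v
  rwa [C.CritA_one h1, C.CritA_one h2, one_pow, mul_one] at this⟩

theorem OvS_ne (hx : C.Feas l1 x) (hy : C.Feas l2 y) : (C.OvS l1 l2 x y).Nonempty := by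
  obtain ⟨u, h1, h2⟩ := hx
  obtain ⟨v, h3, h4⟩ := hy
  exact ⟨_, u, v, h1, h3, h2, h4, rfl⟩

theorem le_Ov {u v : H} (hu : C.P u = 1) (hv : C.P v = 1) (hx : C.q l1 u ≤ x) (hy : C.q l2 v ≤ y) :
    C.R u v ≤ C.Ov l1 l2 x y := le_csSup (C.OvS_bdd _ _ _ _) ⟨u, v, hu, hv, hx, hy, rfl⟩

theorem Ov_nonneg (l1 l2 x y : ℝ) : 0 ≤ C.Ov l1 l2 x y := Real.sSup_nonneg (by
  rintro _ ⟨u, v, -, -, -, -, rfl⟩
  exact C.R_nonneg u v)

theorem Ov_swap (l1 l2 x y : ℝ) : C.Ov l1 l2 x y = C.Ov l2 l1 y x := by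
  unfold Ov
  congr 1
  ext r
  constructor <;> rintro ⟨u, v, h1, h2, h3, h4, rfl⟩ <;>
    exact ⟨v, u, h2, h1, h4, h3, C.R_comm _ _⟩

theorem Ov_mono {x' : ℝ} (hx : C.Feas l1 x) (hy : C.Feas l2 y) (h : x ≤ x') :
    C.Ov l1 l2 x y ≤ C.Ov l1 l2 x' y := csSup_le (C.OvS_ne hx hy) (by
  rintro _ ⟨u, v, h1, h2, h3, h4, rfl⟩
  exact C.le_Ov h1 h2 (h3.trans h) h4)

theorem Ov_seq (hx : C.Feas l1 x) (hy : C.Feas l2 y) : ∃ u v : ℕ → H, (∀ n, C.P (u n) = 1) ∧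
    (∀ n, C.P (v n) = 1) ∧ (∀ n, C.q l1 (u n) ≤ x) ∧ (∀ n, C.q l2 (v n) ≤ y) ∧
      Tendsto (fun n => C.R (u n) (v n)) atTop (𝓝 (C.Ov l1 l2 x y)) := by
  obtain ⟨e, -, e2, e3⟩ := exists_seq_tendsto_sSup (C.OvS_ne hx hy) (C.OvS_bdd l1 l2 x y)
  choose u v h1 h2 h3 h4 h5 using e3
  exact ⟨u, v, h1, h2, h3, h4, e2.congr h5⟩

theorem raise_seq (a : C.Adm l) {z : ℕ → H} (hz : ∀ n, C.P (z n) = 1) (hx : ∀ n, C.q l (z n) ≤ x) :
    ∃ u : ℕ → H, (∀ n, C.P (u n) = 1) ∧ Tendsto (fun n => C.q l (u n)) atTop (𝓝 x) ∧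
      Tendsto (fun n => ‖C.val (u n) - C.val (z n)‖) atTop (𝓝 0) := by
  have x0 : 0 < x := Feas.pos a ⟨z 0, hz 0, hx 0⟩
  choose w w1 w2 using fun n : ℕ => C.osc_to a (z n) (hx n) (η := 1 / ((n : ℝ) + 1))
    Nat.one_div_pos_of_nat
  have l0 : Tendsto (fun n => ‖C.val (w n) - C.val (z n)‖) atTop (𝓝 0) :=
    squeeze_zero (fun n => norm_nonneg _) w2 tendsto_one_div_add_atTop_nhds_zero_nat
  have l1' : Tendsto (fun n => ‖C.val (w n)‖) atTop (𝓝 1) :=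
    tendsto_iff_norm_sub_tendsto_zero.2 (squeeze_zero (fun n => norm_nonneg _) (fun n => by
      rw [← C.CritA_one (hz n)]
      exact abs_norm_sub_norm_le _ _) l0)
  have n0 : ∀ n, ‖C.val (w n)‖ ≠ 0 := fun n => norm_ne_zero_iff.2 fun h => by
    have := w1 n
    rw [C.inj _ h, q_zero] at this
    exact x0.ne this
  refine ⟨fun n => ‖C.val (w n)‖⁻¹ • w n, fun n => ?_, ?_, ?_⟩
  · rw [P_smul, P_eq, ← mul_pow, inv_mul_cancel₀ (n0 n), one_pow]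
  · simp only [q_smul, w1]
    simpa using ((l1'.inv₀ one_ne_zero).pow 2).mul_const x
  · refine squeeze_zero (fun n => norm_nonneg _) (g := fun n => |1 - ‖C.val (w n)‖| +
      ‖C.val (w n) - C.val (z n)‖) (fun n => ?_) (by simpa using ((l1'.const_sub 1).abs).add l0)
    refine (norm_sub_le_norm_sub_add_norm_sub _ (C.val (w n)) _).trans (add_le_add_left ?_ _)
    have e : C.val (‖C.val (w n)‖⁻¹ • w n) - C.val (w n) = (‖C.val (w n)‖⁻¹ - 1) • C.val (w n) := by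
      rw [map_smul, sub_smul, one_smul]
    rw [e, norm_smul, Real.norm_eq_abs, ← abs_of_nonneg (norm_nonneg (C.val (w n))), ← abs_mul,
      abs_of_nonneg (norm_nonneg (C.val (w n))), sub_mul, inv_mul_cancel₀ (n0 n), one_mul]

theorem Ov_min (a1 : C.Adm l1) (a2 : C.Adm l2) (hx : C.Feas l1 x) (hy : C.Feas l2 y) {s t : ℝ}
    (h : Sys m1 m2 β x y 1 1 (C.Ov l1 l2 x y) s t) :
    ∃ u v, C.MinSeq l1 l2 m1 m2 β (s * x + t * y) x y (C.Ov l1 l2 x y) s t u v := by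
  obtain ⟨z, w, z1, w1, z2, w2, hR⟩ := C.Ov_seq hx hy
  obtain ⟨u, u1, u2, u3⟩ := C.raise_seq a1 z1 z2
  obtain ⟨v, v1, v2, v3⟩ := C.raise_seq a2 w1 w2
  refine ⟨u, v, u1, v1, u2, v2, hR.congr_dist (squeeze_zero (fun n => dist_nonneg) (fun n => ?_)
    (by simpa using (u3.add u3).add (v3.add v3))), h.1.le, h.2.1.le, hx.pos a1, hy.pos a2,
    by linarith [h.2.2.1], by linarith [h.2.2.2], rfl⟩
  have := T4_tele (C.val (u n)) (C.val (u n)) (C.val (v n)) (C.val (v n)) (C.val (z n))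
    (C.val (z n)) (C.val (w n)) (C.val (w n))
  rw [C.CritA_one (u1 n), C.CritA_one (v1 n), C.CritA_one (z1 n), C.CritA_one (w1 n)] at this
  rw [dist_comm, Real.dist_eq]
  exact this.trans_eq (by ring)

theorem sq_lim {c x : ℝ} (h : ∀ δ : ℝ, 0 < δ → c ≤ (x + δ) ^ 2) : c ≤ x ^ 2 := by
  have k1 : c ≤ (x + 0) ^ 2 :=
    ge_of_tendsto (x := 𝓝[>] 0) (f := fun δ => (x + δ) ^ 2)
      ((Continuous.tendsto (by fun_prop) 0).mono_left nhdsWithin_le_nhds)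
      (eventually_mem_nhdsWithin.mono h)
  rwa [add_zero] at k1

theorem Ov_semi (a1 : C.Adm l1) (a2 : C.Adm l2) (h1 : 0 < m1) (h2 : 0 < m2)
    (hc : C.LB l1 l2 m1 m2 β c) (hx : C.Feas l1 x) (hy : C.Feas l2 y)
    (h : m1 * y ≤ β * C.Ov l1 l2 x y * x) : c * m1 ≤ x ^ 2 := by
  obtain ⟨z, w, z1, w1, z2, w2, hR⟩ := C.Ov_seq hx hy
  have b0 : 0 < β * C.Ov l1 l2 x y :=
    (mul_pos_iff_of_pos_right (hx.pos a1)).1 ((mul_pos h1 (hy.pos a2)).trans_le h)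
  refine sq_lim fun δ hδ => ?_
  obtain ⟨n, hn⟩ := (((hR.const_mul β).mul_const (x + δ)).eventually_const_lt
    (show m1 * y < β * C.Ov l1 l2 x y * (x + δ) by linarith [mul_pos b0 hδ])).exists
  exact C.semi1 a1 a2 h1 h2 hc (z1 n) (w1 n) (by linarith [z2 n]) (w2 n) hn.le

theorem lb_le_lev (a1 : C.Adm l1) (a2 : C.Adm l2) (h1 : 0 < m1) (h2 : 0 < m2) (hβ : 0 ≤ β)
    (hc : C.LB l1 l2 m1 m2 β c) (hx : C.Feas l1 x) (hy : C.Feas l2 y) :
    c ≤ lev m1 m2 (β * C.Ov l1 l2 x y) x y := by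
  by_cases hi : Inner m1 m2 (β * C.Ov l1 l2 x y) x y
  · obtain ⟨hd, s, t, hs⟩ := hi.sys h1 h2 (mul_nonneg hβ (C.Ov_nonneg _ _ _ _)) (hx.pos a1)
      (hy.pos a2)
    rw [(lev_of_sys hs hd).2]
    obtain ⟨z, w, z1, w1, z2, w2, hR⟩ := C.Ov_seq hx hy
    obtain ⟨s', t', ls, lt, he⟩ := sys_tendsto (F := atTop) (a := fun _ : ℕ => x) (b := fun _ => y)
      (P := fun _ => 1) (Q := fun _ => 1) tendsto_const_nhds tendsto_const_nhds tendsto_const_nhds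
      tendsto_const_nhds hR hs (by simpa using hd)
    exact ge_of_tendsto ((ls.mul_const x).add (lt.mul_const y)) (he.mono fun n hn =>
      C.mon a1 a2 h1 h2 hβ hc (z1 n) (w1 n) (z2 n) (w2 n) (C.R_nonneg _ _) le_rfl hn)
  · exact le_lev h1 h2 hi (C.Ov_semi a1 a2 h1 h2 hc hx hy)
      fun h => C.Ov_semi a2 a1 h2 h1 hc.swap hy hx (by rwa [← C.Ov_swap])

theorem lev_semi (a1 : C.Adm l1) (a2 : C.Adm l2) (h1 : 0 < m1) (h2 : 0 < m2) (hβ : 0 ≤ β)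
    (hc : ∀ x y, C.Feas l1 x → C.Feas l2 y → c ≤ lev m1 m2 (β * C.Ov l1 l2 x y) x y)
    (hx : C.Feas l1 x) (hy : C.Feas l2 y) (h : m1 * y ≤ β * C.Ov l1 l2 x y * x) :
    c * m1 ≤ x ^ 2 := by
  have x0 := hx.pos a1
  have b0 : 0 < β * C.Ov l1 l2 x y :=
    (mul_pos_iff_of_pos_right x0).1 ((mul_pos h1 (hy.pos a2)).trans_le h)
  refine sq_lim fun δ hδ => ?_
  have hx' : C.Feas l1 (x + δ) := hx.imp fun u hu => ⟨hu.1, by linarith [hu.2]⟩
  have b1 := mul_le_mul_of_nonneg_right (mul_le_mul_of_nonneg_left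
    (C.Ov_mono hx hy (show x ≤ x + δ by linarith)) hβ) (show 0 ≤ x + δ by linarith)
  exact (mul_le_mul_of_nonneg_right (hc _ _ hx' hy) h1.le).trans (lev_le h1 h2
    (mul_nonneg hβ (C.Ov_nonneg _ _ _ _)) (by linarith) (hy.pos a2) (by linarith [mul_pos b0 hδ]))

theorem lb_of_lev (a1 : C.Adm l1) (a2 : C.Adm l2) (h1 : 0 < m1) (h2 : 0 < m2) (hβ : 0 ≤ β)
    (hc : ∀ x y, C.Feas l1 x → C.Feas l2 y → c ≤ lev m1 m2 (β * C.Ov l1 l2 x y) x y) :
    C.LB l1 l2 m1 m2 β c := fun U V hN => by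
  obtain ⟨u, v, s, t, s0, t0, pu, pv, e1, e2, e3⟩ := C.CritA_neh hN
  have hx : C.Feas l1 (C.q l1 u) := ⟨u, pu, le_rfl⟩
  have hy : C.Feas l2 (C.q l2 v) := ⟨v, pv, le_rfl⟩
  rw [e3]
  refine mon_alg h1 h2 hβ (C.R_nonneg u v) (C.le_Ov pu pv le_rfl le_rfl)
    ⟨s0, t0, by linarith, by linarith⟩ (C.lev_semi a1 a2 h1 h2 hβ hc hx hy)
    (fun h => C.lev_semi a2 a1 h2 h1 hβ (fun y x hy hx => by
      rw [← C.Ov_swap, ← lev_swap]
      exact hc x y hx hy) hy hx (by rwa [← C.Ov_swap])) fun s' t' hs hd => ?_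
  exact (hc _ _ hx hy).trans_eq (lev_of_sys hs (by simpa using hd)).2

theorem criterion [CompleteSpace H] [TopologicalSpace.SeparableSpace H] (hN : C.NC) (hF : C.FL)
    (a1 : C.Adm l1) (a2 : C.Adm l2) (hl : l1 < l2) (h1 : 0 < m1) (h2 : 0 < m2) (hβ : 0 ≤ β) :
    C.GS l1 l2 m1 m2 β ↔ ∃ x y, C.Feas l1 x ∧ C.Feas l2 y ∧
      Inner m1 m2 (β * C.Ov l1 l2 x y) x y ∧ ∀ x' y', C.Feas l1 x' → C.Feas l2 y' →
        lev m1 m2 (β * C.Ov l1 l2 x y) x y ≤ lev m1 m2 (β * C.Ov l1 l2 x' y') x' y' := by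
  constructor
  · intro h
    obtain ⟨z, w, s, t, pz, pw, z0, w0, hs, hc, e1, e2⟩ := C.Deg_data h
    have hd := C.Deg_ne hN hF a1 a2 hl h1 h2 hβ pz pw z0 w0 hs hc e1 e2
    have hx : C.Feas l1 (C.q l1 z) := ⟨z, pz, le_rfl⟩
    have hy : C.Feas l2 (C.q l2 w) := ⟨w, pw, le_rfl⟩
    have e : β * C.Ov l1 l2 (C.q l1 z) (C.q l2 w) = β * C.R z w := by
      refine le_antisymm (not_lt.1 fun hlt => ?_)
        (mul_le_mul_of_nonneg_left (C.le_Ov pz pw le_rfl le_rfl) hβ)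
      have β0 : 0 < β := lt_of_le_of_ne hβ fun e => by simp [← e] at hlt
      obtain ⟨_, ⟨u, v, pu, pv, hu, hv, rfl⟩, hr⟩ := exists_lt_of_lt_csSup (C.OvS_ne hx hy)
        (lt_of_mul_lt_mul_left hlt hβ)
      obtain ⟨s', t', -, -, he⟩ := sys_tendsto (F := 𝓝[>] (C.R z w)) (a := fun _ : ℝ => C.q l1 z)
        (b := fun _ => C.q l2 w) (P := fun _ => 1) (Q := fun _ => 1) (R := fun ρ => ρ)
        tendsto_const_nhds tendsto_const_nhds tendsto_const_nhds tendsto_const_nhds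
        (tendsto_id.mono_left nhdsWithin_le_nhds) hs (by simpa using hd)
      obtain ⟨ρ, k1, k2, k3⟩ := (he.and (Ioo_mem_nhdsGT hr)).exists
      exact (C.mon a1 a2 h1 h2 hβ hc pu pv hu hv ((C.R_nonneg z w).trans k2.le) k3.le k1).not_gt
        (sys_anti hs k1 (mul_lt_mul_of_pos_left k2 β0))
    refine ⟨_, _, hx, hy, e ▸ (lev_of_sys hs hd).1, fun x' y' hx' hy' => ?_⟩
    rw [e, (lev_of_sys hs hd).2]
    exact C.lb_le_lev a1 a2 h1 h2 hβ hc hx' hy'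
  · rintro ⟨x, y, hx, hy, hi, h⟩
    have hc := C.lb_of_lev a1 a2 h1 h2 hβ h
    obtain ⟨hd, s, t, hs⟩ := hi.sys h1 h2 (mul_nonneg hβ (C.Ov_nonneg _ _ _ _)) (hx.pos a1)
      (hy.pos a2)
    rw [(lev_of_sys hs hd).2] at hc
    obtain ⟨u, v, hM⟩ := C.Ov_min a1 a2 hx hy hs
    obtain ⟨z, w, hz⟩ := C.crit_min a1 a2 h1 h2 hβ hc hM hs.1 hs.2.1 hd
    exact C.crit_gs a1 a2 h1 h2 hβ hc hz

theorem feas_iff [CompleteSpace H] [TopologicalSpace.SeparableSpace H] (a : C.Adm l) (x : ℝ) :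
    sInf {r | ∃ u, C.P u = 1 ∧ r = C.q l u} ≤ x ↔ C.Feas l x := by
  obtain ⟨w, hw⟩ := C.least_exists a one_pos
  obtain ⟨z, p, b1, b2, b3, b4, -⟩ := C.CritA_norm hw.2.1.ne_zero
  have e1 := hw.1.q_eq
  rw [b3, b4, one_mul, sq] at e1
  have e2 : C.q l z = p := mul_left_cancel₀ b1.ne' e1
  have hl : IsLeast {r | ∃ u, C.P u = 1 ∧ r = C.q l u} (C.q l z) := ⟨⟨z, b2, rfl⟩, by
    rintro _ ⟨u, hu, rfl⟩
    have := C.least_quot a.1 one_pos hw u
    rw [hu, b3, e2, mul_one, mul_one, ← sq] at this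
    rw [e2]
    exact (pow_le_pow_iff_left₀ b1.le (C.q_nonneg a.1.le u) two_ne_zero).1 this⟩
  rw [hl.csInf_eq]
  exact ⟨fun h => ⟨z, b2, h⟩, fun ⟨u, h1, h2⟩ => (hl.2 ⟨u, h1, rfl⟩).trans h2⟩

end Ctx
end CritSys
end
end

-- merged part: Pool.Agent.Work.MP_80ee1d_an.W.Final
section
/-! The criterion in the language of the statement. -/

open MeasureTheory

namespace CritSys

theorem sobC_le {d : Dom} {l : ℝ} (a : (ctx d).Adm l) (x : ℝ) :
    sobC d.Ω l ≤ x ↔ (ctx d).Feas l x := by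
  rw [← (ctx d).feas_iff a]
  have e : sobC d.Ω l = sInf {r | ∃ u, (ctx d).P u = 1 ∧ r = (ctx d).q l u} := by
    unfold sobC
    congr 1
    ext r
    constructor
    · rintro ⟨u, h1, rfl⟩
      obtain ⟨U, hU⟩ := exists_rep u
      exact ⟨U, (BridgeA_four hU).2.symm.trans h1, hU.quad l⟩
    · rintro ⟨U, h1, rfl⟩
      obtain ⟨u, hU⟩ := exists_rep' U
      exact ⟨u, (BridgeA_four hU).2.trans h1, (hU.quad l).symm⟩
  rw [e]

theorem overlap_eq (d : Dom) (l1 l2 x y : ℝ) : overlap d.Ω l1 l2 x y = (ctx d).Ov l1 l2 x y := by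
  unfold overlap Ctx.Ov Ctx.OvS
  congr 1
  ext r
  constructor
  · rintro ⟨u, v, h1, h2, h3, h4, rfl⟩
    obtain ⟨U, hU⟩ := exists_rep u
    obtain ⟨V, hV⟩ := exists_rep v
    exact ⟨U, V, (BridgeA_four hU).2.symm.trans h1, (BridgeA_four hV).2.symm.trans h2,
      hU.quad l1 ▸ h3, hV.quad l2 ▸ h4, hU.mix hV⟩
  · rintro ⟨U, V, h1, h2, h3, h4, rfl⟩
    obtain ⟨u, hU⟩ := exists_rep' U
    obtain ⟨v, hV⟩ := exists_rep' V
    exact ⟨u, v, (BridgeA_four hU).2.trans h1, (BridgeA_four hV).2.trans h2,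
      (hU.quad l1).trans_le h3, (hV.quad l2).trans_le h4, (hU.mix hV).symm⟩

theorem final_criterion (Ω : Set E4) (ho : IsOpen Ω) (hc : IsConnected Ω)
    (hb : Bornology.IsBounded Ω) (l₁ l₂ μ₁ μ₂ : ℝ) (k1 : -lam1 Ω < l₁) (k2 : l₁ < l₂)
    (k3 : l₂ < 0) (h1 : 0 < μ₁) (h2 : 0 < μ₂) (β : ℝ) (hβ : 0 ≤ β) :
    HasGroundState Ω l₁ l₂ μ₁ μ₂ β ↔ ∃ x y : ℝ, sobC Ω l₁ ≤ x ∧ sobC Ω l₂ ≤ y ∧
      Inner μ₁ μ₂ (β * overlap Ω l₁ l₂ x y) x y ∧ ∀ x' y' : ℝ, sobC Ω l₁ ≤ x' → sobC Ω l₂ ≤ y' →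
        lev μ₁ μ₂ (β * overlap Ω l₁ l₂ x y) x y ≤ lev μ₁ μ₂ (β * overlap Ω l₁ l₂ x' y') x' y' := by
  obtain ⟨d, rfl⟩ : ∃ d : Dom, d.Ω = Ω := ⟨⟨Ω, ho, hc, hb⟩, rfl⟩
  rw [lam1_eq] at k1
  have a1 : (ctx d).Adm l₁ := ⟨k1, k2.trans k3⟩
  have a2 : (ctx d).Adm l₂ := ⟨k1.trans k2, k3⟩
  simp only [hasGS_iff a1 a2, sobC_le a1, sobC_le a2, overlap_eq]
  exact (ctx d).criterion (ctx_NC d) (ctx_FL d) a1 a2 k2 h1 h2 hβ

end CritSys
end
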